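import Mathlib

set_option autoImplicit false

namespace Pool.Agent.H81.NSDiv

open FirstOrder FirstOrder.Language FirstOrder.Language.Structure

/-- The full first-order language of `ℕ`: a symbol for every finitary function on `ℕ`
and for every finitary relation on `ℕ`. -/
def Full : FirstOrder.Language.{0, 0} where
  Functions := fun n => (Fin n → ℕ) → ℕ
  Relations := fun n => Set (Fin n → ℕ)

/-- The standard model: every symbol denotes itself. -/
instance natStructure : Full.Structure ℕ where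
  funMap := fun {n} (f : (Fin n → ℕ) → ℕ) v => f v
  RelMap := fun {n} (R : Set (Fin n → ℕ)) v => v ∈ R

/-- The symbol of the unary relation `A ⊆ ℕ`. -/
def Rel1 (A : Set ℕ) : Full.Relations 1 := show Set (Fin 1 → ℕ) from {v | v 0 ∈ A}

/-- The symbol of the divisibility relation on `ℕ`. -/
def Dvd2 : Full.Relations 2 := show Set (Fin 2 → ℕ) from {v | v 0 ∣ v 1}

/-- The symbol of the unary function `f : ℕ → ℕ`. -/
def Fun1 (f : ℕ → ℕ) : Full.Functions 1 := show (Fin 1 → ℕ) → ℕ from fun v => f (v 0)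

universe u

variable (S : Type u) [Full.Structure S]

/-- The star-extension `*A ⊆ S` of a set `A ⊆ ℕ`. -/
def star (A : Set ℕ) : Set S := {x | RelMap (Rel1 A) ![x]}

variable {S}

/-- The star-extension of the divisibility relation. -/
def sdvd (x y : S) : Prop := RelMap Dvd2 ![x, y]

variable (S)

/-- The monad `μ(F)`: the intersection of all `*A`, `A ∈ F`. -/
def monad (F : Ultrafilter ℕ) : Set S := {x | ∀ A ∈ F, x ∈ star S A}

variable {S}

/-- Convexity with respect to star-divisibility. -/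
def IsConvex (X : Set S) : Prop :=
  ∀ x ∈ X, ∀ y ∈ X, ∀ z : S, sdvd x z → sdvd z y → z ∈ X

/-- Transfer for universal closures. -/
lemma transfer (e : ℕ ↪ₑ[Full] S) {n : ℕ} (φ : Full.BoundedFormula Empty n)
    (h : ∀ xs : Fin n → ℕ, φ.Realize Empty.elim xs) (xs : Fin n → S) :
    φ.Realize Empty.elim xs := by
  have h1 : ℕ ⊨ φ.alls := by
    rw [Sentence.Realize, BoundedFormula.realize_alls]
    intro ys
    exact (congrArg (fun v => φ.Realize v ys) (Subsingleton.elim _ _)).mp (h ys)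
  rw [e.map_sentence] at h1
  rw [Sentence.Realize, BoundedFormula.realize_alls] at h1
  exact (congrArg (fun v => φ.Realize v xs) (Subsingleton.elim _ _)).mp (h1 xs)

/-- star extension of a unary function -/
def sfun (f : ℕ → ℕ) (x : S) : S := funMap (Fun1 f) ![x]

abbrev v0 {n : ℕ} (i : Fin n) : Full.Term (Empty ⊕ Fin n) := Term.var (Sum.inr i)

lemma vec1 {α β : Type*} (f : α → β) (a : α) : (fun i => f (![a] i)) = ![f a] := by
  funext i; fin_cases i; rfl

lemma vec2 {α β : Type*} (f : α → β) (a b : α) : (fun i => f (![a, b] i)) = ![f a, f b] := by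
  funext i; fin_cases i <;> rfl

lemma star_sfun (e : ℕ ↪ₑ[Full] S) (f : ℕ → ℕ) (A : Set ℕ) (x : S) :
    sfun f x ∈ star S A ↔ x ∈ star S (f ⁻¹' A) := by
  have := transfer e (n := 1)
    (((Rel1 A).boundedFormula ![Term.func (Fun1 f) ![v0 0] ]).iff
      ((Rel1 (f ⁻¹' A)).boundedFormula ![v0 0])) (by
      intro xs
      rw [BoundedFormula.realize_iff, BoundedFormula.realize_rel, BoundedFormula.realize_rel]
      rfl) ![x]
  rw [BoundedFormula.realize_iff, BoundedFormula.realize_rel, BoundedFormula.realize_rel,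
    vec1, vec1, Term.realize_func, vec1] at this
  exact this

/-- If `f n ∣ g n` on `A`, then `*f x *∣ *g x` on `*A`. -/
lemma sdvd_sfun (e : ℕ ↪ₑ[Full] S) (f g : ℕ → ℕ) (A : Set ℕ) (hA : ∀ n ∈ A, f n ∣ g n)
    (x : S) (hx : x ∈ star S A) : sdvd (sfun f x) (sfun g x) := by
  have := transfer e (n := 1)
    (((Rel1 A).boundedFormula ![v0 0]).imp
      (Dvd2.boundedFormula ![Term.func (Fun1 f) ![v0 0], Term.func (Fun1 g) ![v0 0] ])) (by
      intro xs
      rw [BoundedFormula.realize_imp, BoundedFormula.realize_rel, BoundedFormula.realize_rel]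
      intro h
      exact hA _ h) ![x]
  rw [BoundedFormula.realize_imp, BoundedFormula.realize_rel, BoundedFormula.realize_rel,
    vec1, vec2, Term.realize_func, Term.realize_func, vec1] at this
  exact this hx

/-- Upward closed sets stay upward closed. -/
lemma star_up (e : ℕ ↪ₑ[Full] S) (A : Set ℕ) (hA : ∀ a ∈ A, ∀ b, a ∣ b → b ∈ A)
    (x y : S) (hx : x ∈ star S A) (hxy : sdvd x y) : y ∈ star S A := by
  have := transfer e (n := 2)
    (((Rel1 A).boundedFormula ![v0 0]).imp ((Dvd2.boundedFormula ![v0 0, v0 1]).imp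
      ((Rel1 A).boundedFormula ![v0 1]))) (by
      intro xs
      rw [BoundedFormula.realize_imp, BoundedFormula.realize_imp, BoundedFormula.realize_rel,
        BoundedFormula.realize_rel, BoundedFormula.realize_rel]
      intro h1 h2
      exact hA _ h1 _ h2) ![x, y]
  rw [BoundedFormula.realize_imp, BoundedFormula.realize_imp, BoundedFormula.realize_rel,
    BoundedFormula.realize_rel, BoundedFormula.realize_rel, vec1, vec1, vec2] at this
  exact this hx hxy

lemma star_inter (e : ℕ ↪ₑ[Full] S) (A B : Set ℕ) (x : S) :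
    x ∈ star S (A ∩ B) ↔ x ∈ star S A ∧ x ∈ star S B := by
  have := transfer e (n := 1)
    (((Rel1 (A ∩ B)).boundedFormula ![v0 0]).iff
      ((Rel1 A).boundedFormula ![v0 0] ⊓ (Rel1 B).boundedFormula ![v0 0])) (by
      intro xs
      rw [BoundedFormula.realize_iff, BoundedFormula.realize_inf, BoundedFormula.realize_rel,
        BoundedFormula.realize_rel, BoundedFormula.realize_rel]
      rfl) ![x]
  rw [BoundedFormula.realize_iff, BoundedFormula.realize_inf, BoundedFormula.realize_rel,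
        BoundedFormula.realize_rel, BoundedFormula.realize_rel, vec1] at this
  exact this

lemma star_compl (e : ℕ ↪ₑ[Full] S) (A : Set ℕ) (x : S) :
    x ∈ star S Aᶜ ↔ x ∉ star S A := by
  have := transfer e (n := 1)
    (((Rel1 Aᶜ).boundedFormula ![v0 0]).iff ((Rel1 A).boundedFormula ![v0 0]).not) (by
      intro xs
      rw [BoundedFormula.realize_iff, BoundedFormula.realize_not, BoundedFormula.realize_rel,
        BoundedFormula.realize_rel]
      rfl) ![x]
  rw [BoundedFormula.realize_iff, BoundedFormula.realize_not, BoundedFormula.realize_rel,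
        BoundedFormula.realize_rel, vec1] at this
  exact this

lemma star_univ (e : ℕ ↪ₑ[Full] S) (x : S) : x ∈ star S Set.univ := by
  have := transfer e (n := 1) ((Rel1 Set.univ).boundedFormula ![v0 0]) (by
      intro xs
      rw [BoundedFormula.realize_rel]
      exact Set.mem_univ _) ![x]
  rw [BoundedFormula.realize_rel, vec1] at this
  exact this

lemma star_mono (e : ℕ ↪ₑ[Full] S) {A B : Set ℕ} (h : A ⊆ B) (x : S) (hx : x ∈ star S A) :
    x ∈ star S B := by
  have h1 : A ∩ B = A := Set.inter_eq_left.2 h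
  have h2 := (star_inter e A B x).1 (by rw [h1]; exact hx)
  exact h2.2

/-- The ultrafilter `v(x) = {A : x ∈ *A}` of a nonstandard number. -/
def vUlt (e : ℕ ↪ₑ[Full] S) (x : S) : Ultrafilter ℕ :=
  Ultrafilter.ofComplNotMemIff
    { sets := {A | x ∈ star S A}
      univ_sets := star_univ e x
      sets_of_superset := fun {A B} hA h => star_mono e h x hA
      inter_sets := fun {A B} hA hB => (star_inter e A B x).2 ⟨hA, hB⟩ } (by
    intro A
    show ¬ x ∈ star S Aᶜ ↔ x ∈ star S A
    rw [star_compl e, not_not])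

lemma mem_vUlt (e : ℕ ↪ₑ[Full] S) (x : S) (A : Set ℕ) : A ∈ vUlt e x ↔ x ∈ star S A := Iff.rfl

lemma mem_monad_iff (e : ℕ ↪ₑ[Full] S) (x : S) (F : Ultrafilter ℕ) :
    x ∈ monad S F ↔ vUlt e x = F := by
  constructor
  · intro h
    exact Ultrafilter.coe_le_coe.1 (fun A hA => h A hA)
  · rintro rfl A hA
    exact hA

/-- `F =~ G`: the two ultrafilters contain the same divisibility-upward-closed sets. -/
def EqSim (F G : Ultrafilter ℕ) : Prop :=
  ∀ A : Set ℕ, (∀ a ∈ A, ∀ b, a ∣ b → b ∈ A) → (A ∈ F ↔ A ∈ G)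

/-- the three decoding functions -/
def d1 (n : ℕ) : ℕ := (Nat.unpair n).1
def d2 (n : ℕ) : ℕ := (Nat.unpair (Nat.unpair n).2).1
def d3 (n : ℕ) : ℕ := (Nat.unpair (Nat.unpair n).2).2

/-- If `F =~ G` there are `x, y ∈ μ(F)` and `z ∈ μ(G)` with `x *∣ z *∣ y`. -/
theorem between (e : ℕ ↪ₑ[Full] S) (hmon : ∀ F : Ultrafilter ℕ, (monad S F).Nonempty)
    (F G : Ultrafilter ℕ) (h : EqSim F G) :
    ∃ x ∈ monad S F, ∃ y ∈ monad S F, ∃ z ∈ monad S G, sdvd x z ∧ sdvd z y := by
  classical
  let f : Filter ℕ := (Filter.comap d1 (F : Filter ℕ) ⊓ Filter.comap d2 (G : Filter ℕ) ⊓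
    Filter.comap d3 (F : Filter ℕ)) ⊓ Filter.principal {n | d1 n ∣ d2 n ∧ d2 n ∣ d3 n}
  have hf : f.NeBot := by
    rw [← Filter.forall_mem_nonempty_iff_neBot]
    intro s hs
    obtain ⟨t, ht, hts⟩ := Filter.mem_inf_principal.1 hs |> fun h => (⟨_, h, subset_rfl⟩ :
      ∃ t, t ∈ (Filter.comap d1 (F : Filter ℕ) ⊓ Filter.comap d2 (G : Filter ℕ) ⊓
        Filter.comap d3 (F : Filter ℕ)) ∧ t ⊆ {x | x ∈ {n | d1 n ∣ d2 n ∧ d2 n ∣ d3 n} → x ∈ s})
    obtain ⟨t1, ht1, t2, ht2, rfl⟩ := Filter.mem_inf_iff.1 ht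
    obtain ⟨t3, ht3, t4, ht4, rfl⟩ := Filter.mem_inf_iff.1 ht1
    obtain ⟨A, hA, hA'⟩ := Filter.mem_comap.1 ht3
    obtain ⟨B, hB, hB'⟩ := Filter.mem_comap.1 ht4
    obtain ⟨A2, hA2, hA2'⟩ := Filter.mem_comap.1 ht2
    have h1 : {b | ∃ a ∈ A, a ∣ b} ∈ G := by
      rw [← h]
      · exact Filter.mem_of_superset hA (fun a ha => ⟨a, ha, dvd_rfl⟩)
      · rintro a ⟨c, hc, hca⟩ b hab
        exact ⟨c, hc, hca.trans hab⟩
    have h2 : {b | ∃ a ∈ A2, b ∣ a} ∈ G := by
      by_contra hcon
      rw [← Ultrafilter.compl_mem_iff_notMem] at hcon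
      rw [← h] at hcon
      · obtain ⟨n, hn1, hn2⟩ := Ultrafilter.nonempty_of_mem (Filter.inter_mem hcon hA2)
        exact hn1 ⟨n, hn2, dvd_rfl⟩
      · rintro a ha b hab ⟨c, hc, hbc⟩
        exact ha ⟨c, hc, hab.trans hbc⟩
    obtain ⟨b, ⟨⟨a, ha, hab⟩, ⟨c, hc, hbc⟩⟩, hbB⟩ :=
      Ultrafilter.nonempty_of_mem (Filter.inter_mem (Filter.inter_mem h1 h2) hB)
    refine ⟨Nat.pair a (Nat.pair b c), ?_⟩
    have hd1 : d1 (Nat.pair a (Nat.pair b c)) = a := by simp [d1]
    have hd2 : d2 (Nat.pair a (Nat.pair b c)) = b := by simp [d2]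
    have hd3 : d3 (Nat.pair a (Nat.pair b c)) = c := by simp [d3]
    refine hts ⟨⟨hA' ?_, hB' ?_⟩, hA2' ?_⟩ ?_
    · simpa [hd1] using ha
    · simpa [hd2] using hbB
    · simpa [hd3] using hc
    · simpa [hd1, hd2, hd3] using ⟨hab, hbc⟩
  let W : Ultrafilter ℕ := Ultrafilter.of f
  have hW : (W : Filter ℕ) ≤ f := Ultrafilter.of_le f
  obtain ⟨w, hw⟩ := hmon W
  have hD : {n | d1 n ∣ d2 n ∧ d2 n ∣ d3 n} ∈ W :=
    hW (Filter.mem_inf_of_right (Filter.mem_principal_self _))
  have h12 : ∀ A ∈ F, d1 ⁻¹' A ∈ W := fun A hA => hW (Filter.mem_inf_of_left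
    (Filter.mem_inf_of_left (Filter.mem_inf_of_left (Filter.preimage_mem_comap hA))))
  have h22 : ∀ A ∈ G, d2 ⁻¹' A ∈ W := fun A hA => hW (Filter.mem_inf_of_left
    (Filter.mem_inf_of_left (Filter.mem_inf_of_right (Filter.preimage_mem_comap hA))))
  have h32 : ∀ A ∈ F, d3 ⁻¹' A ∈ W := fun A hA => hW (Filter.mem_inf_of_left
    (Filter.mem_inf_of_right (Filter.preimage_mem_comap hA)))
  refine ⟨sfun d1 w, ?_, sfun d3 w, ?_, sfun d2 w, ?_, ?_, ?_⟩
  · exact fun A hA => (star_sfun e _ _ _).2 (hw _ (h12 A hA))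
  · exact fun A hA => (star_sfun e _ _ _).2 (hw _ (h32 A hA))
  · exact fun A hA => (star_sfun e _ _ _).2 (hw _ (h22 A hA))
  · exact sdvd_sfun e _ _ _ (fun n hn => hn.1) w (hw _ hD)
  · exact sdvd_sfun e _ _ _ (fun n hn => hn.2) w (hw _ hD)

/-- Monads of `=~`-isolated ultrafilters are the convex ones. -/
theorem convex_iff (e : ℕ ↪ₑ[Full] S) (hmon : ∀ F : Ultrafilter ℕ, (monad S F).Nonempty)
    (F : Ultrafilter ℕ) : IsConvex (monad S F) ↔ ∀ G : Ultrafilter ℕ, EqSim F G → G = F := by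
  constructor
  · intro hc G hG
    obtain ⟨x, hx, y, hy, z, hz, hxz, hzy⟩ := between e hmon F G hG
    have h1 := (mem_monad_iff e z F).1 (hc x hx y hy z hxz hzy)
    have h2 := (mem_monad_iff e z G).1 hz
    rw [← h1, ← h2]
  · intro h x hx y hy z hxz hzy
    rw [mem_monad_iff e]
    refine h _ ?_
    intro A hA
    rw [mem_vUlt]
    constructor
    · intro hAF
      exact star_up e A hA x z (hx A hAF) hxz
    · intro hz
      have h1 : y ∈ star S A := star_up e A hA z y hz hzy
      rw [← (mem_monad_iff e y F).1 hy]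
      exact h1

/-- powers of four, and twice the powers of four -/
def p4 (n : ℕ) : ℕ := 4 ^ n
def q4 (n : ℕ) : ℕ := 2 * 4 ^ n

lemma eqSim_p4 (H : Ultrafilter ℕ) (hH : ∀ n, {m | n < m} ∈ H) :
    EqSim (H.map p4) (H.map q4) := by
  intro A hA
  rw [Ultrafilter.mem_map, Ultrafilter.mem_map]
  constructor
  · intro h
    refine Filter.mem_of_superset h ?_
    intro n hn
    exact hA _ hn _ (Dvd.intro_left 2 rfl)
  · intro h
    obtain ⟨n, hn⟩ := Ultrafilter.nonempty_of_mem h
    refine Filter.mem_of_superset (hH n) ?_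
    intro m hm
    refine hA _ hn _ ?_
    show 2 * 4 ^ n ∣ 4 ^ m
    have : (4 : ℕ) ^ m = 4 ^ n * 4 ^ (m - n) := by
      rw [← pow_add]
      congr 1
      have : n < m := hm
      omega
    rw [this, mul_comm]
    refine Nat.mul_dvd_mul_left _ ?_
    have h2 : (4:ℕ) ^ (m - n) = 4 ^ (m - n - 1) * 4 := by
      rw [← pow_succ]
      congr 1
      have : n < m := hm
      omega
    rw [h2]
    exact Dvd.dvd.mul_left (by norm_num) _

lemma ne_p4 (H : Ultrafilter ℕ) : H.map q4 ≠ H.map p4 := by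
  intro h
  have h1 : {m | IsSquare m} ∈ H.map p4 := by
    rw [Ultrafilter.mem_map]
    refine Filter.univ_mem' ?_
    intro n
    refine ⟨2 ^ n, ?_⟩
    show 4 ^ n = _
    rw [← mul_pow]
    norm_num
  rw [← h, Ultrafilter.mem_map] at h1
  obtain ⟨n, k, hk⟩ := Ultrafilter.nonempty_of_mem h1
  have h2 : 2 * 4 ^ n = k * k := hk
  have h3 : Squarefree 2 := Nat.prime_two.prime.squarefree
  have h4 : padicValNat 2 (2 * 4 ^ n) = padicValNat 2 (k * k) := by rw [h2]
  have hk0 : k ≠ 0 := by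
    rintro rfl
    simp at h2
  have : (4 : ℕ) ^ n = 2 ^ (2 * n) := by rw [pow_mul]; norm_num
  rw [padicValNat.mul hk0 hk0, this, ← pow_succ', padicValNat.prime_pow] at h4
  omega

/-- For every nonprincipal `H`, the monad of the image of `H` under `n ↦ 4 ^ n` is not convex. -/
theorem not_convex_p4 (e : ℕ ↪ₑ[Full] S) (hmon : ∀ F : Ultrafilter ℕ, (monad S F).Nonempty)
    (H : Ultrafilter ℕ) (hH : ∀ n, {m | n < m} ∈ H) : ¬ IsConvex (monad S (H.map p4)) := by
  intro hc
  exact ne_p4 H ((convex_iff e hmon _).1 hc _ (eqSim_p4 H hH))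

/-! ### Sanity check: extensions with nonempty monads exist -/

/-- An ultrapower of `ℕ` in which all monads are nonempty. -/
theorem exists_extension : ∃ (S : Type) (_ : Full.Structure S) (_ : ℕ ↪ₑ[Full] S),
    ∀ F : Ultrafilter ℕ, (monad S F).Nonempty := by
  classical
  let I := Finset (Set ℕ)
  let U : Ultrafilter I := Ultrafilter.of (Filter.atTop : Filter I)
  have hU : (U : Filter I) ≤ Filter.atTop := Ultrafilter.of_le _
  let S : Type := (U : Filter I).Product (fun _ => ℕ)
  let e : ℕ ↪ₑ[Full] S :=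
    { toFun := fun n => ((fun _ => n : I → ℕ) : (U : Filter I).Product (fun _ => ℕ))
      map_formula' := by
        intro n φ x
        have := Ultraproduct.realize_formula_cast (u := U) (M := fun _ => ℕ) φ (fun i _ => x i)
        refine Iff.trans (Iff.trans (Iff.of_eq (congrArg _ ?_)) this) ?_
        · rfl
        · simp }
  refine ⟨S, inferInstance, e, ?_⟩
  intro F
  have h1 : ∀ i : I, ∃ n : ℕ, ∀ A ∈ i, A ∈ F → n ∈ A := by
    intro i
    have : (⋂ A ∈ (i.filter (fun A => A ∈ F)), A) ∈ F := by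
      rw [← Ultrafilter.mem_coe, Filter.biInter_finset_mem]
      intro A hA
      exact (Finset.mem_filter.1 hA).2
    obtain ⟨n, hn⟩ := Ultrafilter.nonempty_of_mem this
    refine ⟨n, fun A hA hAF => ?_⟩
    simp only [Set.mem_iInter, Finset.mem_filter] at hn
    exact hn A ⟨hA, hAF⟩
  choose g hg using h1
  refine ⟨((g : I → ℕ) : (U : Filter I).Product (fun _ => ℕ)), ?_⟩
  intro A hA
  have h2 := Ultraproduct.realize_formula_cast (u := U) (M := fun _ => ℕ)
    ((Rel1 A).formula ![Term.var ()]) (fun _ => g)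
  rw [Formula.realize_rel] at h2
  have h3 : ∀ᶠ i in (U : Filter I), ((Rel1 A).formula ![Term.var ()]).Realize
      (fun _ : Unit => g i) := by
    have h4 : {i : I | A ∈ i} ∈ (U : Filter I) := by
      refine hU ?_
      refine Filter.mem_of_superset (Filter.mem_atTop ({A} : Finset (Set ℕ))) ?_
      intro i hi
      exact Finset.singleton_subset_iff.1 hi
    filter_upwards [h4] with i hi
    rw [Formula.realize_rel]
    exact hg i A hi hA
  have h5 := h2.2 h3
  have h6 : (fun i => ((![Term.var ()] : Fin 1 → Full.Term Unit) i).realize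
      (fun _ : Unit => ((g : I → ℕ) : (U : Filter I).Product (fun _ => ℕ)))) =
      ![((g : I → ℕ) : (U : Filter I).Product (fun _ => ℕ))] := by
    funext i; fin_cases i; rfl
  rw [h6] at h5
  exact h5

end Pool.Agent.H81.NSDiv
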